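import Mathlib

set_option autoImplicit false

namespace Pool.Agent.Results.MP_dea706_ag.Minor

open MvPolynomial Matrix

/-- The determinantal polynomial `det (c₁ X₁ + ⋯ + cₘ Xₘ)`; the variable `(k, i, j)` is the
entry `(i, j)` of `X_k`. -/
noncomputable def f (n m : ℕ) (c : Fin m → ℂ) : MvPolynomial (Fin m × Fin n × Fin n) ℂ :=
  (Matrix.of fun i j : Fin n => ∑ k, C (c k) * X (k, i, j)).det

/-- Tuples of matrices all of whose linear combinations are singular. -/
def SING (n m : ℕ) : Set (Fin m × Fin n × Fin n → ℂ) :=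
  {x | ∀ c : Fin m → ℂ, (Matrix.of fun i j : Fin n => ∑ k, c k * x (k, i, j)).det = 0}

/-- Three of the four positions. -/
def pos : Fin 3 → Fin 2 × Fin 2 := ![(0, 0), (0, 1), (1, 0)]

open DualNumber TrivSqZeroExt in
/-- A point of the scheme cut out by the determinantal polynomials. -/
noncomputable def pt : Fin 3 × Fin 2 × Fin 2 → DualNumber (DualNumber ℂ) := fun v =>
  ![!![1, 0; 0, 0], !![0, inl ε; inl ε, 0], !![0, -ε; ε, 0]] v.1 v.2.1 v.2.2

theorem result : ∃ n m, 1 ≤ n ∧ 1 ≤ m ∧ ∃ p : MvPolynomial (Fin m × Fin n × Fin n) ℂ,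
    (∀ x ∈ SING n m, eval x p = 0) ∧ p ∉ Ideal.span (Set.range (f n m)) := by
  refine ⟨2, 3, by norm_num, by norm_num, (Matrix.of fun k l : Fin 3 => X (k, pos l)).det,
    fun x hx => ?_, fun h => ?_⟩
  · rw [RingHom.map_det]
    by_contra h
    set N := (eval x).mapMatrix (Matrix.of fun k l : Fin 3 => X (k, pos l))
    have e : (![0, 1, 1] ᵥ* N⁻¹) ᵥ* N = ![0, 1, 1] := by
      rw [vecMul_vecMul, nonsing_inv_mul _ (Ne.isUnit h), vecMul_one]
    have h0 := hx (![0, 1, 1] ᵥ* N⁻¹)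
    generalize (![0, 1, 1] ᵥ* N⁻¹) = c at e h0
    have e0 := congrFun e 0
    have e1 := congrFun e 1
    have e2 := congrFun e 2
    simp [N, vecMul, dotProduct, pos] at e0 e1 e2
    simp [det_fin_two, e0, e1, e2] at h0
  · have h2 : Ideal.span (Set.range (f 2 3)) ≤ RingHom.ker (aeval (R := ℂ) pt) := by
      rw [Ideal.span_le]
      rintro _ ⟨c, rfl⟩
      simp only [SetLike.mem_coe, RingHom.mem_ker, f, det_fin_two, Fin.sum_univ_three]
      ext <;> simp [pt, mul_comm]
    have h3 := congrArg (fun z => z.snd.snd) (RingHom.mem_ker.1 (h2 h))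
    simp [det_fin_three, pos, pt] at h3

end Pool.Agent.Results.MP_dea706_ag.Minor
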